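import Mathlib
import Pool.Agent.KS6_19.CX.T6.H52.Cvx.Compact

/-! The Hausdorff dimension of the compact bad set. -/

set_option autoImplicit false

open Set Filter Topology MeasureTheory
open scoped ENNReal NNReal

namespace T6H52.Cvx

namespace Dat

variable (d : Dat)

lemma cover_D (n : ℕ) : ∃ A : Finset ℝ, A.card ≤ 8 ^ n ∧
    ∀ y ∈ d.D, ∃ a ∈ A, |y - a| ≤ 8 * d.δ ^ (n + 1) := by
  have hδ := d.δpos
  induction n with
  | zero =>
    refine ⟨{0}, by simp, ?_⟩
    rintro y ⟨z, hz, rfl⟩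
    exact ⟨0, by simp, by simpa using d.E_y hz⟩
  | succ n ih =>
    obtain ⟨A, hA, h⟩ := ih
    refine ⟨((Finset.univ : Finset (Fin 8)) ×ˢ A).image (fun p => d.δ * (c p.1 + p.2)), ?_, ?_⟩
    · refine Finset.card_image_le.trans ?_
      rw [Finset.card_product, Finset.card_univ, Fintype.card_fin, pow_succ']
      exact Nat.mul_le_mul_left _ hA
    · rintro y ⟨⟨x, y'⟩, hz, rfl⟩
      obtain ⟨i, hi⟩ := d.E_digit hz
      obtain ⟨a, ha, ha'⟩ := h (y' / d.δ - c i) ⟨_, (d.E_step hz hi).1, rfl⟩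
      refine ⟨d.δ * (c i + a), Finset.mem_image.2 ⟨(i, a), by simp [ha], rfl⟩, ?_⟩
      have h1 : y' - d.δ * (c i + a) = d.δ * ((y' / d.δ - c i) - a) := by
        field_simp
        ring
      simp only
      rw [h1, abs_mul, abs_of_pos hδ, pow_succ' d.δ (n + 1)]
      nlinarith

lemma K_fst {z : ℝ × ℝ} (hz : z ∈ d.K) : |z.1| ≤ 4 := by
  have hM := d.P.hM
  obtain ⟨x, y⟩ := z
  obtain ⟨-, hz⟩ := hz
  replace hz : d.h (x, y) ≤ d.f (x, y) := hz
  simp only [h, f] at hz
  have h1 := (abs_le.1 (d.bd x y)).1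
  have h2 : x ^ 2 + y ^ 2 ≤ |y| + 4 := by nlinarith
  rw [← sq_abs x, ← sq_abs y] at h2
  simp only
  nlinarith [abs_nonneg x, abs_nonneg y, sq_nonneg (|y| - 1)]

end Dat

lemma cover_x {ε : ℝ} (hε : 0 < ε) (hε1 : ε ≤ 1) : ∃ B : Finset ℝ, (B.card : ℝ) ≤ 11 / ε ∧
    ∀ x : ℝ, |x| ≤ 4 → ∃ b ∈ B, |x - b| ≤ ε := by
  set N : ℤ := ⌈4 / ε⌉ with hN
  have hN1 : 4 / ε ≤ N := Int.le_ceil _
  have hN2 : (N : ℝ) < 4 / ε + 1 := Int.ceil_lt_add_one _
  have hN0 : (0 : ℝ) < N := lt_of_lt_of_le (by positivity) hN1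
  have hN0' : 0 < N := by exact_mod_cast hN0
  refine ⟨(Finset.Icc (-N) N).image (fun j : ℤ => (j : ℝ) * ε), ?_, ?_⟩
  · have h1 : (((Finset.Icc (-N) N).image (fun j : ℤ => (j : ℝ) * ε)).card : ℝ) ≤
        ((Finset.Icc (-N) N).card : ℝ) := by exact_mod_cast Finset.card_image_le
    refine h1.trans ?_
    rw [Int.card_Icc]
    have h2 : ((N + 1 - -N).toNat : ℝ) = 2 * N + 1 := by
      have h3 : ((N + 1 - -N).toNat : ℤ) = 2 * N + 1 := by
        rw [Int.toNat_of_nonneg (by omega)]; ring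
      exact_mod_cast h3
    rw [h2]
    have h4 : 1 ≤ 1 / ε := by rw [le_div_iff₀ hε]; linarith
    have h5 : 11 / ε = 2 * (4 / ε) + 3 * (1 / ε) := by ring
    rw [h5]
    linarith
  · intro x hx
    have hx' := abs_le.1 hx
    refine ⟨(⌊x / ε⌋ : ℝ) * ε, Finset.mem_image.2 ⟨⌊x / ε⌋, ?_, rfl⟩, ?_⟩
    · rw [Finset.mem_Icc]
      constructor
      · rw [Int.le_floor]
        push_cast
        have h1 : -(4 / ε) ≤ x / ε := by
          rw [← neg_div]
          exact div_le_div_of_nonneg_right hx'.1 hε.le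
        linarith
      · have h1 : x / ε ≤ 4 / ε := div_le_div_of_nonneg_right hx'.2 hε.le
        have h2 : (⌊x / ε⌋ : ℝ) ≤ N := (Int.floor_le _).trans (h1.trans hN1)
        exact_mod_cast h2
    · have h1 := Int.floor_le (x / ε)
      have h2 := Int.lt_floor_add_one (x / ε)
      have h3 : x = x / ε * ε := by field_simp
      rw [abs_le]
      constructor
      · have := mul_le_mul_of_nonneg_right h1 hε.le
        nlinarith
      · have := mul_le_mul_of_nonneg_right h2.le hε.le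
        nlinarith

namespace Dat

variable (d : Dat)

theorem dimH_K_le (s : ℝ≥0) (hs1 : 1 ≤ s) (hs : 8 * d.δ ^ ((s : ℝ) - 1) ≤ 1) :
    dimH d.K ≤ s := by
  have hδ := d.δpos
  have hδ1 := d.δle
  set ε : ℕ → ℝ := fun n => 8 * d.δ ^ (n + 1) with hεdef
  have hε : ∀ n, 0 < ε n := fun n => by positivity
  have hε1 : ∀ n, ε n ≤ 1 := by
    intro n
    simp only [hεdef]
    have : d.δ ^ (n + 1) ≤ d.δ := by
      rw [pow_succ]
      exact mul_le_of_le_one_left hδ.le (pow_le_one₀ hδ.le (by linarith))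
    linarith
  choose A hA hA' using fun n => d.cover_D n
  choose B hB hB' using fun n => cover_x (hε n) (hε1 n)
  set t : (n : ℕ) → {p // p ∈ B n ×ˢ A n} → Set (ℝ × ℝ) :=
    fun n p => Metric.closedBall p.1 (ε n) with ht
  have hdiam : ∀ n (p : {p // p ∈ B n ×ˢ A n}),
      Metric.ediam (t n p) ≤ ENNReal.ofReal (2 * ε n) := by
    intro n p
    refine Metric.ediam_le_of_forall_dist_le fun x hx y hy => ?_
    have h1 := Metric.mem_closedBall.1 hx
    have h2 := Metric.mem_closedBall.1 hy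
    have h3 := dist_triangle_right x y p.1
    linarith
  have hcov : ∀ n, d.K ⊆ ⋃ p, t n p := by
    intro n z hz
    obtain ⟨a, ha, ha'⟩ := hA' n z.2 ⟨z, hz.1, rfl⟩
    obtain ⟨b, hb, hb'⟩ := hB' n z.1 (d.K_fst hz)
    rw [mem_iUnion]
    refine ⟨⟨(b, a), Finset.mem_product.2 ⟨hb, ha⟩⟩, ?_⟩
    rw [Metric.mem_closedBall, Prod.dist_eq, Real.dist_eq, Real.dist_eq]
    exact max_le hb' ha'
  have hr : Tendsto (fun n => ENNReal.ofReal (2 * ε n)) atTop (𝓝 0) := by
    rw [← ENNReal.ofReal_zero]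
    refine ENNReal.tendsto_ofReal ?_
    have h1 : Tendsto (fun n : ℕ => d.δ ^ n) atTop (𝓝 0) :=
      tendsto_pow_atTop_nhds_zero_of_lt_one hδ.le (by linarith)
    have h2 := (h1.comp (tendsto_add_atTop_nat 1)).const_mul 16
    rw [mul_zero] at h2
    refine h2.congr fun n => ?_
    simp only [hεdef, Function.comp]
    ring
  have h1 := Measure.hausdorffMeasure_le_liminf_sum (s : ℝ) d.K
    (fun n => ENNReal.ofReal (2 * ε n)) hr t (Eventually.of_forall hdiam)
    (Eventually.of_forall hcov)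
  set C : ℝ := 11 * 2 ^ (s : ℝ) * (8 : ℝ) ^ ((s : ℝ) - 1) with hC
  have hs0 : (0 : ℝ) ≤ s := s.2
  have hs1' : (1 : ℝ) ≤ s := by exact_mod_cast hs1
  have hbound : ∀ n, ∑ p, Metric.ediam (t n p) ^ (s : ℝ) ≤ ENNReal.ofReal C := by
    intro n
    calc ∑ p, Metric.ediam (t n p) ^ (s : ℝ)
        ≤ ∑ p : {p // p ∈ B n ×ˢ A n}, (ENNReal.ofReal (2 * ε n)) ^ (s : ℝ) :=
          Finset.sum_le_sum fun p _ => ENNReal.rpow_le_rpow (hdiam n p) hs0
      _ = ((B n).card * (A n).card : ℕ) * ENNReal.ofReal ((2 * ε n) ^ (s : ℝ)) := by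
          rw [Finset.sum_const, Finset.card_univ, Fintype.card_coe, Finset.card_product,
            nsmul_eq_mul, ENNReal.ofReal_rpow_of_nonneg (by have := hε n; positivity) hs0]
      _ = ENNReal.ofReal (((B n).card * (A n).card : ℕ) * ((2 * ε n) ^ (s : ℝ))) := by
          rw [ENNReal.ofReal_mul (by positivity), ENNReal.ofReal_natCast]
      _ ≤ ENNReal.ofReal C := by
          refine ENNReal.ofReal_le_ofReal ?_
          have e1 : ((2 : ℝ) * ε n) ^ (s : ℝ) = 2 ^ (s : ℝ) * (ε n ^ ((s : ℝ) - 1) * ε n) := by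
            rw [Real.mul_rpow (by norm_num) (hε n).le]
            congr 1
            rw [← Real.rpow_add_one (hε n).ne', sub_add_cancel]
          have e2 : ε n ^ ((s : ℝ) - 1) =
              (8 : ℝ) ^ ((s : ℝ) - 1) * ((d.δ ^ ((s : ℝ) - 1)) ^ (n + 1)) := by
            simp only [hεdef]
            rw [Real.mul_rpow (by norm_num) (by positivity)]
            congr 1
            rw [← Real.rpow_natCast, ← Real.rpow_natCast, ← Real.rpow_mul hδ.le,
              ← Real.rpow_mul hδ.le, mul_comm]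
          have hb : ((B n).card : ℝ) * ε n ≤ 11 := by
            have := hB n
            rwa [le_div_iff₀ (hε n)] at this
          have ha : ((A n).card : ℝ) ≤ 8 ^ n := by exact_mod_cast hA n
          set q : ℝ := d.δ ^ ((s : ℝ) - 1) with hq
          have hq0 : 0 ≤ q := by positivity
          have hq1 : q ≤ 1 := by linarith
          have hqn : (8 : ℝ) ^ n * q ^ (n + 1) ≤ 1 := by
            rw [pow_succ, ← mul_assoc, ← mul_pow]
            have h3 : (8 * q) ^ n ≤ 1 := pow_le_one₀ (by positivity) hs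
            have h4 : 0 ≤ (8 * q) ^ n := by positivity
            nlinarith
          have h80 : (0 : ℝ) < (8 : ℝ) ^ ((s : ℝ) - 1) := by positivity
          have h20 : (0 : ℝ) < (2 : ℝ) ^ (s : ℝ) := by positivity
          rw [e1, e2]
          push_cast
          calc ((B n).card : ℝ) * (A n).card *
                (2 ^ (s : ℝ) * ((8 : ℝ) ^ ((s : ℝ) - 1) * q ^ (n + 1) * ε n))
              = (2 ^ (s : ℝ) * (8 : ℝ) ^ ((s : ℝ) - 1)) *
                ((((B n).card : ℝ) * ε n) * (((A n).card : ℝ) * q ^ (n + 1))) := by ring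
            _ ≤ (2 ^ (s : ℝ) * (8 : ℝ) ^ ((s : ℝ) - 1)) * (11 * 1) := by
                refine mul_le_mul_of_nonneg_left ?_ (by positivity)
                refine mul_le_mul hb ?_ (by positivity) (by norm_num)
                exact (mul_le_mul_of_nonneg_right ha (by positivity)).trans hqn
            _ = C := by rw [hC]; ring
  have h2 : Measure.hausdorffMeasure (s : ℝ) d.K ≤ ENNReal.ofReal C := by
    refine h1.trans ?_
    calc liminf (fun n => ∑ p, Metric.ediam (t n p) ^ (s : ℝ)) atTop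
        ≤ liminf (fun _ : ℕ => ENNReal.ofReal C) atTop :=
          liminf_le_liminf (Eventually.of_forall hbound)
      _ = ENNReal.ofReal C := liminf_const _
  exact dimH_le_of_hausdorffMeasure_ne_top (ne_top_of_le_ne_top ENNReal.ofReal_ne_top h2)

end Dat

/-- **Compact totally disconnected sets of dimension close to one which are not removable.** -/
theorem exists_small_dimension (s : ℝ≥0) (hs : 1 < s) : ∃ E : Set (ℝ × ℝ), IsCompact E ∧
    IsTotallyDisconnected E ∧ volume E = 0 ∧ volume (Prod.snd '' E) = 0 ∧ dimH E ≤ s ∧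
    ∃ f : ℝ × ℝ → ℝ, Continuous f ∧
      (∀ z ∈ Eᶜ, ∃ V : Set (ℝ × ℝ), IsOpen V ∧ Convex ℝ V ∧ z ∈ V ∧ V ⊆ Eᶜ ∧ ConvexOn ℝ V f) ∧
      ¬ ConvexOn ℝ univ f := by
  have hs' : (1 : ℝ) < s := by exact_mod_cast hs
  have hs0 : (0 : ℝ) < (s : ℝ) - 1 := by linarith
  obtain ⟨d, hd⟩ := exists_small ((1 / 8 : ℝ) ^ (1 / ((s : ℝ) - 1))) (by positivity)
  have hdim : 8 * d.δ ^ ((s : ℝ) - 1) ≤ 1 := by
    have h1 : d.δ ^ ((s : ℝ) - 1) ≤ ((1 / 8 : ℝ) ^ (1 / ((s : ℝ) - 1))) ^ ((s : ℝ) - 1) :=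
      Real.rpow_le_rpow d.δpos.le hd hs0.le
    rw [← Real.rpow_mul (by norm_num), one_div_mul_cancel hs0.ne', Real.rpow_one] at h1
    linarith
  refine ⟨d.K, d.K_compact, ?_, ?_, ?_, d.dimH_K_le s hs.le hdim, d.g, d.g_cont, d.g_local,
    d.g_not_convex⟩
  · exact fun t ht hp => d.E_tot t (ht.trans inter_subset_left) hp
  · exact measure_mono_null inter_subset_left d.E_null
  · exact measure_mono_null (image_mono inter_subset_left) d.D_null

end T6H52.Cvx
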