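import Mathlib

/-!
Closed planar sets of length zero are c-removable. The first lemmas follow the library module
R222 (Dust) for MP_034ae1_an.
-/

set_option autoImplicit false

open Set MeasureTheory Filter Topology
open scoped ENNReal NNReal

namespace Pool.Agent.KS6_19.CX.Thin

/-- `f` is locally convex on `U`: every point of `U` has an open convex neighbourhood inside `U`
on which `f` is convex. -/
def LocConvexOn (f : ℝ × ℝ → ℝ) (U : Set (ℝ × ℝ)) : Prop :=
  ∀ z ∈ U, ∃ V : Set (ℝ × ℝ), IsOpen V ∧ Convex ℝ V ∧ z ∈ V ∧ V ⊆ U ∧ ConvexOn ℝ V f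

/-- Touching a non-convex function from above by lines, after a small strictly convex correction. -/
lemma contact {Ψ : ℝ → ℝ} (hΨ : Continuous Ψ) {a b m : ℝ} (ham : a < m) (hmb : m < b)
    (hbad : (b - m) * Ψ a + (m - a) * Ψ b < (b - a) * Ψ m) :
    ∃ ε > 0, ∃ κ > 0, ∃ c : ℝ, ∃ η > 0, ∀ p ∈ Ioo (c - η) (c + η),
      ∃ t, a + κ ≤ t ∧ t ≤ b - κ ∧
        ∀ y ∈ Icc a b, Ψ y + ε * y ^ 2 ≤ Ψ t + ε * t ^ 2 + p * (y - t) := by
  have hab : a < b := ham.trans hmb
  set D0 := (b - a) * Ψ m - ((b - m) * Ψ a + (m - a) * Ψ b) with hD0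
  have hD0pos : 0 < D0 := by linarith
  have hprod : 0 < (b - a) * (b - m) * (m - a) := by
    have h1 : 0 < b - a := by linarith
    have h2 : 0 < b - m := by linarith
    have h3 : 0 < m - a := by linarith
    positivity
  set ε := D0 / (2 * ((b - a) * (b - m) * (m - a))) with hε
  have hεpos : 0 < ε := by positivity
  have hεmul : ε * ((b - a) * (b - m) * (m - a)) = D0 / 2 := by
    rw [hε]
    generalize (b - a) * (b - m) * (m - a) = q at hprod ⊢
    field_simp
  set V : ℝ → ℝ := fun y => Ψ y + ε * y ^ 2 with hV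
  have hVc : Continuous V := by fun_prop
  have hVdef : (b - a) * V m - ((b - m) * V a + (m - a) * V b) = D0 / 2 := by
    have : (b - a) * V m - ((b - m) * V a + (m - a) * V b)
        = D0 - ε * ((b - a) * (b - m) * (m - a)) := by
      simp only [hV, hD0]; ring
    rw [this, hεmul]; ring
  have hba : 0 < b - a := by linarith
  set c := (V b - V a) / (b - a) with hc
  have hcmul : c * (b - a) = V b - V a := by rw [hc]; field_simp
  set U : ℝ → ℝ := fun y => V y - V a - c * (y - a) with hU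
  have hUc : Continuous U := by fun_prop
  have hUa : U a = 0 := by simp [hU]
  have hUb : U b = 0 := by simp only [hU]; rw [hcmul]; ring
  set D := U m with hD
  have hDpos : 0 < D := by
    have h1 : (b - a) * U m = D0 / 2 := by
      have : (b - a) * U m = (b - a) * V m - (b - a) * V a - (c * (b - a)) * (m - a) := by
        simp only [hU]; ring
      rw [this, hcmul, ← hVdef]; ring
    have h2 : 0 < (b - a) * U m := by rw [h1]; positivity
    exact (pos_iff_pos_of_mul_pos h2).1 hba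
  have hna : ∀ᶠ y in 𝓝 a, U y < D / 4 := by
    have : U a < D / 4 := by rw [hUa]; positivity
    exact hUc.continuousAt.eventually_lt_const this
  have hnb : ∀ᶠ y in 𝓝 b, U y < D / 4 := by
    have : U b < D / 4 := by rw [hUb]; positivity
    exact hUc.continuousAt.eventually_lt_const this
  obtain ⟨κ1, hκ1, h1⟩ := Metric.eventually_nhds_iff.1 hna
  obtain ⟨κ2, hκ2, h2⟩ := Metric.eventually_nhds_iff.1 hnb
  refine ⟨ε, hεpos, min κ1 κ2, lt_min hκ1 hκ2, c, D / (8 * (b - a)), by positivity, ?_⟩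
  intro p hp
  set p' := p - c with hp'
  have hp'abs : |p'| * (b - a) ≤ D / 8 := by
    have : |p'| ≤ D / (8 * (b - a)) := by
      rw [abs_le]; constructor <;> [linarith [hp.1]; linarith [hp.2]]
    calc |p'| * (b - a) ≤ D / (8 * (b - a)) * (b - a) :=
          mul_le_mul_of_nonneg_right this hba.le
      _ = D / 8 := by field_simp
  have hcomp : IsCompact (Icc a b) := isCompact_Icc
  obtain ⟨t, htm, htmax⟩ := hcomp.exists_isMaxOn (f := fun y => U y - p' * (y - a))
    ⟨a, left_mem_Icc.2 hab.le⟩ (by fun_prop)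
  have hpt : ∀ y ∈ Icc a b, |p' * (y - a)| ≤ D / 8 := by
    intro y hy
    rw [abs_mul, abs_of_nonneg (sub_nonneg.2 hy.1)]
    refine le_trans (mul_le_mul_of_nonneg_left ?_ (abs_nonneg _)) hp'abs
    linarith [hy.2]
  have hmm : m ∈ Icc a b := ⟨ham.le, hmb.le⟩
  have hmaxm : U m - p' * (m - a) ≤ U t - p' * (t - a) := htmax hmm
  have hb1 := abs_le.1 (hpt m hmm)
  have hb2 := abs_le.1 (hpt t htm)
  have hUt : D / 4 < U t := by
    have : D = U m := hD
    linarith [hb1.1, hb1.2, hb2.1, hb2.2]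
  refine ⟨t, ?_, ?_, ?_⟩
  · by_contra hcon
    push Not at hcon
    have : U t < D / 4 := h1 (by
      rw [Real.dist_eq, abs_of_nonneg (by linarith [htm.1])]
      linarith [min_le_left κ1 κ2])
    linarith
  · by_contra hcon
    push Not at hcon
    have : U t < D / 4 := h2 (by
      rw [Real.dist_eq, abs_sub_comm, abs_of_nonneg (by linarith [htm.2])]
      linarith [min_le_right κ1 κ2])
    linarith
  · intro y hy
    have h3 : U y - p' * (y - a) ≤ U t - p' * (t - a) := htmax hy
    simp only [hU, hV, hp'] at h3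
    have : p * (y - t) = p * (y - a) - p * (t - a) := by ring
    linarith

/-- A continuous function which is locally midpoint convex lies below its chords. -/
lemma chord_of_local {Ψ : ℝ → ℝ} (hΨ : Continuous Ψ) {a b : ℝ}
    (hloc : ∀ y ∈ Ioo a b, ∃ r > 0, ∀ h ∈ Ioo 0 r, 2 * Ψ y ≤ Ψ (y + h) + Ψ (y - h))
    {m : ℝ} (ham : a < m) (hmb : m < b) :
    (b - a) * Ψ m ≤ (b - m) * Ψ a + (m - a) * Ψ b := by
  by_contra hcon
  push Not at hcon
  obtain ⟨ε, hε, κ, hκ, c, η, hη, H⟩ := contact hΨ ham hmb hcon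
  obtain ⟨t, hta, htb, ht⟩ := H c ⟨by linarith, by linarith⟩
  obtain ⟨r, hr, hr'⟩ := hloc t ⟨by linarith, by linarith⟩
  set h := min (r / 2) κ with hh
  have hpos : 0 < h := lt_min (by linarith) hκ
  have h1 := hr' h ⟨hpos, lt_of_le_of_lt (min_le_left _ _) (by linarith)⟩
  have hk : h ≤ κ := min_le_right _ _
  have h2 := ht (t + h) ⟨by linarith, by linarith⟩
  have h3 := ht (t - h) ⟨by linarith, by linarith⟩
  have : 0 < ε * h ^ 2 := by positivity
  nlinarith

variable {f : ℝ × ℝ → ℝ} {E : Set (ℝ × ℝ)}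

lemma mid_local (hloc : LocConvexOn f Eᶜ) {z : ℝ × ℝ} (hz : z ∉ E) (v : ℝ × ℝ) :
    ∃ r > 0, ∀ h ∈ Ioo (0:ℝ) r, 2 * f z ≤ f (z + h • v) + f (z - h • v) := by
  obtain ⟨V, hVo, hVc, hzV, hVU, hconv⟩ := hloc z hz
  have h1 : ∀ᶠ h : ℝ in 𝓝 0, z + h • v ∈ V := by
    have : ContinuousAt (fun h : ℝ => z + h • v) 0 := by fun_prop
    apply this.eventually_mem
    simpa using hVo.mem_nhds hzV
  have h2 : ∀ᶠ h : ℝ in 𝓝 0, z - h • v ∈ V := by
    have : ContinuousAt (fun h : ℝ => z - h • v) 0 := by fun_prop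
    apply this.eventually_mem
    simpa using hVo.mem_nhds hzV
  obtain ⟨r, hr, hr'⟩ := Metric.eventually_nhds_iff.1 (h1.and h2)
  refine ⟨r, hr, fun h hh => ?_⟩
  obtain ⟨h3, h4⟩ := hr' (y := h) (by rw [Real.dist_eq, sub_zero, abs_of_pos hh.1]; exact hh.2)
  have h5 := hconv.2 h3 h4 (show (0:ℝ) ≤ 1 / 2 by norm_num) (show (0:ℝ) ≤ 1 / 2 by norm_num)
    (by norm_num)
  have h6 : (1 / 2 : ℝ) • (z + h • v) + (1 / 2 : ℝ) • (z - h • v) = z := by
    rw [← smul_add, add_add_sub_cancel, ← two_smul ℝ z, smul_smul]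
    norm_num
  rw [h6] at h5
  simp only [smul_eq_mul] at h5
  linarith

/-- chord inequality along a segment whose open part avoids `E` -/
lemma chord_segment (hf : Continuous f) (hloc : LocConvexOn f Eᶜ) (z v : ℝ × ℝ) {a b m : ℝ}
    (hE : ∀ t ∈ Ioo a b, z + t • v ∉ E) (ham : a < m) (hmb : m < b) :
    (b - a) * f (z + m • v) ≤ (b - m) * f (z + a • v) + (m - a) * f (z + b • v) := by
  refine chord_of_local (Ψ := fun t => f (z + t • v)) (by fun_prop) ?_ ham hmb
  intro y hy
  obtain ⟨r, hr, h⟩ := mid_local hloc (hE y hy) v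
  refine ⟨r, hr, fun h' hh' => ?_⟩
  have := h h' hh'
  have e1 : z + (y + h') • v = z + y • v + h' • v := by rw [add_smul]; abel
  have e2 : z + (y - h') • v = z + y • v - h' • v := by rw [sub_smul]; abel
  simp only [e1, e2]
  exact this



theorem convex_of_hausdorff_null (hf : Continuous f) (hloc : LocConvexOn f Eᶜ)
    (h0 : Measure.hausdorffMeasure 1 E = 0) : ConvexOn ℝ univ f := by
  refine ⟨convex_univ, ?_⟩
  intro x _ y _ α β hα hβ hαβ
  rcases hα.eq_or_lt with hα | hα
  · subst hα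
    have : β = 1 := by linarith
    subst this
    simp
  rcases hβ.eq_or_lt with hβ | hβ
  · subst hβ
    have : α = 1 := by linarith
    subst this
    simp
  by_cases hxy : y = x
  · subst hxy
    rw [← add_smul, ← add_smul, hαβ, one_smul, one_smul]
  set v : ℝ × ℝ := y - x with hv
  have hv0 : v ≠ 0 := sub_ne_zero.2 hxy
  set w : ℝ × ℝ := (-v.2, v.1) with hw
  set cc : ℝ := v.1 ^ 2 + v.2 ^ 2 with hcc
  have hc : 0 < cc := by
    rcases eq_or_ne v.1 0 with h1 | h1
    · have h2 : v.2 ≠ 0 := by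
        intro h2
        exact hv0 (Prod.ext h1 h2)
      positivity
    · positivity
  set L : ℝ × ℝ →L[ℝ] ℝ := cc⁻¹ • (v.1 • ContinuousLinearMap.snd ℝ ℝ ℝ -
    v.2 • ContinuousLinearMap.fst ℝ ℝ ℝ) with hL
  set ψ : ℝ × ℝ → ℝ := fun z => L z + -(L x) with hψ
  have hLv : L v = 0 := by
    simp only [hL, smul_apply, sub_apply,
      ContinuousLinearMap.coe_fst', ContinuousLinearMap.coe_snd', smul_eq_mul]
    ring
  have hLw : L w = 1 := by
    simp only [hL, hw, smul_apply, sub_apply,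
      ContinuousLinearMap.coe_fst', ContinuousLinearMap.coe_snd', smul_eq_mul]
    have : v.1 * v.1 - v.2 * -v.2 = cc := by rw [hcc]; ring
    rw [this, inv_mul_cancel₀ hc.ne']
  have hψt : ∀ t s : ℝ, ψ (x + t • w + s • v) = t := by
    intro t s
    simp only [hψ, map_add, map_smul, hLv, hLw, smul_eq_mul]
    ring
  have hlip : LipschitzWith (‖L‖₊ + 0) ψ := L.lipschitz.add (LipschitzWith.const _)
  have hnull : volume (ψ '' E) = 0 := by
    have h1 := hlip.hausdorffMeasure_image_le (zero_le_one' ℝ) E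
    rw [h0, mul_zero, nonpos_iff_eq_zero, hausdorffMeasure_real] at h1
    exact h1
  have hdense : Dense (ψ '' E)ᶜ :=
    interior_eq_empty_iff_dense_compl.1 (Measure.interior_eq_empty_of_null hnull)
  have hcl : IsClosed {t : ℝ | (1 - 0) * f (x + t • w + β • v) ≤
      (1 - β) * f (x + t • w + (0 : ℝ) • v) + (β - 0) * f (x + t • w + (1 : ℝ) • v)} :=
    isClosed_le (by fun_prop) (by fun_prop)
  have hsub : (ψ '' E)ᶜ ⊆ {t : ℝ | (1 - 0) * f (x + t • w + β • v) ≤
      (1 - β) * f (x + t • w + (0 : ℝ) • v) + (β - 0) * f (x + t • w + (1 : ℝ) • v)} := by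
    intro t ht
    refine chord_segment hf hloc (x + t • w) v (fun s _ hs => ht ⟨_, hs, hψt t s⟩) hβ (by linarith)
  have h1 : (0 : ℝ) ∈ {t : ℝ | (1 - 0) * f (x + t • w + β • v) ≤
      (1 - β) * f (x + t • w + (0 : ℝ) • v) + (β - 0) * f (x + t • w + (1 : ℝ) • v)} := by
    have h2 := hcl.closure_subset_iff.2 hsub
    rw [hdense.closure_eq] at h2
    exact h2 (mem_univ _)
  simp only [mem_ofPred_eq, zero_smul, add_zero, sub_zero, one_mul, one_smul] at h1
  have e1 : x + v = y := by rw [hv]; abel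
  have e2 : x + β • v = α • x + β • y := by
    have : α = 1 - β := by linarith
    rw [this, hv, smul_sub, sub_smul, one_smul]
    abel
  rw [e1, e2] at h1
  have h3 : 1 - β = α := by linarith
  rw [h3] at h1
  simpa only [smul_eq_mul] using h1

end Pool.Agent.KS6_19.CX.Thin
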